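import Pool.Agent.H773.IE.SM

/-! `S_inv`: invariant functions of transitive actions are constant. -/

set_option autoImplicit false

open MeasureTheory Set Filter Topology

namespace Pool.Agent.H106.IE

open Pool.Agent.H773.IE

theorem t_inv : S_inv := by
  intro G X _ _ _ _ _ _ _ μ _ _ _ _ _ _ _ _ _ m _ _ f hf hinv
  -- measurability of the exceptional set
  have hsm : Measurable fun p : G × X => f (p.1 • p.2) := hf.comp measurable_smul
  have hE : MeasurableSet {p : G × X | f (p.1 • p.2) = f p.2} :=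
    measurableSet_eq_fun hsm (hf.comp measurable_snd)
  have h1 : ∀ᵐ p ∂(μ.prod m), f (p.1 • p.2) = f p.2 :=
    (Measure.ae_prod_iff_ae_ae hE).mpr (Eventually.of_forall fun g => hinv g)
  have h2 : ∀ᵐ y ∂m, ∀ᵐ g ∂μ, f (g • y) = f y := by
    have h3 : ∀ᵐ p ∂(m.prod μ), f (p.2 • p.1) = f p.1 := by
      rw [← Measure.prod_swap] at h1
      exact ae_of_ae_map measurable_swap.aemeasurable h1
    exact Measure.ae_ae_of_ae_prod h3
  obtain ⟨y₀, hy₀⟩ := h2.exists
  refine ⟨f y₀, ?_⟩
  -- all orbits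
  have h4 : ∀ y : X, ∀ᵐ g ∂μ, f (g • y) = f y₀ := by
    intro y
    obtain ⟨h, rfl⟩ := MulAction.exists_smul_eq G y₀ y
    have h5 := (measurePreserving_mul_right μ h).quasiMeasurePreserving.ae hy₀
    filter_upwards [h5] with g hg
    rwa [smul_smul]
  have hF : MeasurableSet {p : G × X | f (p.1 • p.2) = f y₀} :=
    measurableSet_eq_fun hsm measurable_const
  have h6 : ∀ᵐ g ∂μ, ∀ᵐ y ∂m, f (g • y) = f y₀ := by
    have hF' : MeasurableSet {p : X × G | f (p.2 • p.1) = f y₀} := measurable_swap hF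
    have h7 : ∀ᵐ p ∂(m.prod μ), f (p.2 • p.1) = f y₀ :=
      (Measure.ae_prod_iff_ae_ae hF').mpr (Eventually.of_forall fun y => h4 y)
    have h8 : ∀ᵐ p ∂(μ.prod m), f (p.1 • p.2) = f y₀ := by
      rw [← Measure.prod_swap] at h7
      exact ae_of_ae_map measurable_swap.aemeasurable h7
    exact Measure.ae_ae_of_ae_prod h8
  obtain ⟨g, hg⟩ := h6.exists
  have h9 := (measurePreserving_smul g⁻¹ m).quasiMeasurePreserving.ae hg
  filter_upwards [h9] with y hy
  rwa [smul_inv_smul] at hy

end Pool.Agent.H106.IE
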